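import Mathlib

/-!
# A self-shuffling word with exactly one steering word

An explicit infinite word over a five-letter alphabet which can be shuffled with itself to
reproduce itself in one and only one way.
-/

namespace Pool.Agent.Results.MP_814ec7_co.UniqueSteeringWord

/-- The word `x[N] = x_{N_0} x_{N_1} x_{N_2} ⋯` for a set `N = {N_0 < N_1 < ⋯}`. -/
noncomputable def subword {A : Type} (x : ℕ → A) (N : Set ℕ) : ℕ → A :=
  fun i => x (Nat.nth (fun n => n ∈ N) i)

/-- `ℕ` splits as the disjoint union of two infinite sets `N₁`, `N₂` with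
`x[N₁] = x[N₂] = x`. -/
def IsSplitting {A : Type} (x : ℕ → A) (N₁ N₂ : Set ℕ) : Prop :=
  Disjoint N₁ N₂ ∧ N₁ ∪ N₂ = Set.univ ∧ N₁.Infinite ∧ N₂.Infinite ∧
    subword x N₁ = x ∧ subword x N₂ = x

/-- `s` is the steering word of a splitting of `x`: `N₁ = {n | s n = 1}`, `N₂ = {n | s n = 2}`
(in particular every value of `s` is `1` or `2`). -/
def IsSteeringWord {A : Type} (x : ℕ → A) (s : ℕ → ℕ) : Prop :=
  IsSplitting x {n | s n = 1} {n | s n = 2}

/-! ### The word -/

/-- The word `0 1 2 3 1 4 0 1 2 3 1 0 4 1 2 0 1 3 ⋯`. -/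
def x : ℕ → Fin 5
  | 0 => 0
  | 1 => 1
  | 2 => 2
  | 3 => 3
  | 4 => 1
  | 5 => 4
  | 6 => 0
  | 7 => 1
  | 8 => 2
  | 9 => 3
  | 10 => 1
  | n + 11 =>
    if n % 6 = 0 then x (6 + 3 * (n / 6))
    else if n % 6 = 1 then x (5 + 3 * (n / 6))
    else if n % 6 = 2 then x (7 + 3 * (n / 6))
    else if n % 6 = 3 then x (8 + 3 * (n / 6))
    else if n % 6 = 4 then x (6 + 3 * (n / 6))
    else x (7 + 3 * (n / 6))
  termination_by n => n
  decreasing_by all_goals omega

theorem x_big (n : ℕ) : x (n + 11) =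
    if n % 6 = 0 then x (6 + 3 * (n / 6))
    else if n % 6 = 1 then x (5 + 3 * (n / 6))
    else if n % 6 = 2 then x (7 + 3 * (n / 6))
    else if n % 6 = 3 then x (8 + 3 * (n / 6))
    else if n % 6 = 4 then x (6 + 3 * (n / 6))
    else x (7 + 3 * (n / 6)) := by
  rw [x]

theorem x0 (m : ℕ) : x (11 + 6 * m) = x (6 + 3 * m) := by
  have h := x_big (6 * m)
  have e : 6 * m % 6 = 0 := by omega
  have e2 : 6 * m / 6 = m := by omega
  rw [e, e2, if_pos rfl] at h
  rw [← h]; congr 1; omega

theorem x1 (m : ℕ) : x (12 + 6 * m) = x (5 + 3 * m) := by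
  have h := x_big (6 * m + 1)
  have e : (6 * m + 1) % 6 = 1 := by omega
  have e2 : (6 * m + 1) / 6 = m := by omega
  rw [e, e2] at h
  simp at h
  rw [← h]; congr 1; omega

theorem x2 (m : ℕ) : x (13 + 6 * m) = x (7 + 3 * m) := by
  have h := x_big (6 * m + 2)
  have e : (6 * m + 2) % 6 = 2 := by omega
  have e2 : (6 * m + 2) / 6 = m := by omega
  rw [e, e2] at h
  simp at h
  rw [← h]; congr 1; omega

theorem x3 (m : ℕ) : x (14 + 6 * m) = x (8 + 3 * m) := by
  have h := x_big (6 * m + 3)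
  have e : (6 * m + 3) % 6 = 3 := by omega
  have e2 : (6 * m + 3) / 6 = m := by omega
  rw [e, e2] at h
  simp at h
  rw [← h]; congr 1; omega

theorem x4 (m : ℕ) : x (15 + 6 * m) = x (6 + 3 * m) := by
  have h := x_big (6 * m + 4)
  have e : (6 * m + 4) % 6 = 4 := by omega
  have e2 : (6 * m + 4) / 6 = m := by omega
  rw [e, e2] at h
  simp at h
  rw [← h]; congr 1; omega

theorem x5 (m : ℕ) : x (16 + 6 * m) = x (7 + 3 * m) := by
  have h := x_big (6 * m + 5)
  have e : (6 * m + 5) % 6 = 5 := by omega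
  have e2 : (6 * m + 5) / 6 = m := by omega
  rw [e, e2] at h
  simp at h
  rw [← h]; congr 1; omega

/-! ### The windows -/

/-- The window of nine letters starting at position `5 + 3m`. -/
def win (m : ℕ) : List (Fin 5) :=
  [x (5 + 3 * m), x (6 + 3 * m), x (7 + 3 * m), x (8 + 3 * m), x (9 + 3 * m), x (10 + 3 * m),
    x (11 + 3 * m), x (12 + 3 * m), x (13 + 3 * m)]

def nextA : List (Fin 5) → List (Fin 5)
  | [a, b, c, d, e, f, _, _, _] => [b, a, c, d, b, c, e, d, f]
  | _ => []

def nextB : List (Fin 5) → List (Fin 5)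
  | [_, b, c, d, e, f, g, _, _] => [d, b, c, e, d, f, g, e, f]
  | _ => []

theorem win_even (m : ℕ) : win (2 * m + 2) = nextA (win m) := by
  simp only [win, nextA, List.cons.injEq, and_true]
  refine ⟨?_, ?_, ?_, ?_, ?_, ?_, ?_, ?_, ?_⟩
  · rw [← x0 m]; congr 1; omega
  · rw [← x1 m]; congr 1; omega
  · rw [← x2 m]; congr 1; omega
  · rw [← x3 m]; congr 1; omega
  · rw [← x4 m]; congr 1; omega
  · rw [← x5 m]; congr 1; omega
  · rw [show 9 + 3 * m = 6 + 3 * (m + 1) by omega, ← x0 (m + 1)]; congr 1; omega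
  · rw [show 8 + 3 * m = 5 + 3 * (m + 1) by omega, ← x1 (m + 1)]; congr 1; omega
  · rw [show 10 + 3 * m = 7 + 3 * (m + 1) by omega, ← x2 (m + 1)]; congr 1; omega

theorem win_odd (m : ℕ) : win (2 * m + 3) = nextB (win m) := by
  simp only [win, nextB, List.cons.injEq, and_true]
  refine ⟨?_, ?_, ?_, ?_, ?_, ?_, ?_, ?_, ?_⟩
  · rw [← x3 m]; congr 1; omega
  · rw [← x4 m]; congr 1; omega
  · rw [← x5 m]; congr 1; omega
  · rw [show 9 + 3 * m = 6 + 3 * (m + 1) by omega, ← x0 (m + 1)]; congr 1; omega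
  · rw [show 8 + 3 * m = 5 + 3 * (m + 1) by omega, ← x1 (m + 1)]; congr 1; omega
  · rw [show 10 + 3 * m = 7 + 3 * (m + 1) by omega, ← x2 (m + 1)]; congr 1; omega
  · rw [show 11 + 3 * m = 8 + 3 * (m + 1) by omega, ← x3 (m + 1)]; congr 1; omega
  · rw [show 9 + 3 * m = 6 + 3 * (m + 1) by omega, ← x4 (m + 1)]; congr 1; omega
  · rw [show 10 + 3 * m = 7 + 3 * (m + 1) by omega, ← x5 (m + 1)]; congr 1; omega

/-- All windows at `m ≥ 1`. -/
def wins : List (List (Fin 5)) :=
  [[2, 3, 1, 0, 4, 1, 2, 0, 1], [0, 4, 1, 2, 0, 1, 3, 2, 1], [2, 0, 1, 3, 2, 1, 0, 3, 1],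
   [0, 2, 1, 3, 0, 1, 2, 3, 1], [3, 0, 1, 2, 3, 1, 0, 2, 1], [0, 3, 1, 2, 0, 1, 3, 2, 1],
   [2, 3, 1, 0, 2, 1, 3, 0, 1], [3, 2, 1, 0, 3, 1, 2, 0, 1], [4, 0, 1, 2, 4, 1, 0, 2, 1],
   [2, 4, 1, 0, 2, 1, 3, 0, 1], [4, 2, 1, 0, 4, 1, 2, 0, 1], [2, 4, 1, 0, 2, 1, 4, 0, 1],
   [0, 2, 1, 4, 0, 1, 2, 4, 1], [2, 0, 1, 4, 2, 1, 0, 4, 1], [0, 4, 1, 2, 0, 1, 4, 2, 1],
   [3, 2, 1, 0, 3, 1, 4, 0, 1], [0, 3, 1, 4, 0, 1, 2, 4, 1], [3, 0, 1, 4, 3, 1, 0, 4, 1],
   [4, 3, 1, 0, 4, 1, 2, 0, 1], [3, 4, 1, 0, 3, 1, 4, 0, 1], [4, 3, 1, 0, 4, 1, 3, 0, 1],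
   [0, 4, 1, 3, 0, 1, 4, 3, 1], [4, 0, 1, 3, 4, 1, 0, 3, 1], [0, 3, 1, 4, 0, 1, 3, 4, 1],
   [0, 2, 1, 3, 0, 1, 4, 3, 1]]

theorem wins_next : ∀ w ∈ wins, nextA w ∈ wins ∧ nextB w ∈ wins := by
  decide +kernel

theorem small_vals : x 0 = 0 ∧ x 1 = 1 ∧ x 2 = 2 ∧ x 3 = 3 ∧ x 4 = 1 ∧ x 5 = 4 ∧ x 6 = 0 ∧
    x 7 = 1 ∧ x 8 = 2 ∧ x 9 = 3 ∧ x 10 = 1 := by
  refine ⟨?_, ?_, ?_, ?_, ?_, ?_, ?_, ?_, ?_, ?_, ?_⟩ <;> rw [x]

theorem win_zero : win 0 = [4, 0, 1, 2, 3, 1, 0, 4, 1] := by
  obtain ⟨-, -, -, -, -, h5, h6, h7, h8, h9, h10⟩ := small_vals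
  have h11 := x0 0
  have h12 := x1 0
  have h13 := x2 0
  simp only [Nat.mul_zero, Nat.add_zero] at h11 h12 h13
  simp only [win, Nat.mul_zero, Nat.add_zero, h11, h12, h13, h5, h6, h7, h8, h9, h10]

theorem win_one : win 1 = [2, 3, 1, 0, 4, 1, 2, 0, 1] := by
  obtain ⟨-, -, -, -, -, h5, h6, h7, h8, h9, h10⟩ := small_vals
  have h11 := x0 0
  have h12 := x1 0
  have h13 := x2 0
  have h14 := x3 0
  have h15 := x4 0
  have h16 := x5 0
  simp only [Nat.mul_zero, Nat.add_zero] at h11 h12 h13 h14 h15 h16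
  simp only [win, Nat.mul_one, Nat.reduceAdd, h11, h12, h13, h14, h15, h16, h5, h6, h7, h8, h9,
    h10]

theorem win_mem : ∀ m, 1 ≤ m → win m ∈ wins := by
  intro m
  induction m using Nat.strong_induction_on with
  | _ m ih =>
    intro hm
    rcases Nat.lt_or_ge m 2 with h | h
    · obtain rfl : m = 1 := by omega
      rw [win_one]; decide +kernel
    · rcases Nat.even_or_odd' m with ⟨k, rfl | rfl⟩
      · obtain ⟨j, rfl⟩ : ∃ j, k = j + 1 := ⟨k - 1, by omega⟩
        rw [show 2 * (j + 1) = 2 * j + 2 by ring, win_even]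
        rcases Nat.eq_zero_or_pos j with rfl | hj
        · rw [win_zero]; decide +kernel
        · exact (wins_next _ (ih j (by omega) hj)).1
      · obtain ⟨j, rfl⟩ : ∃ j, k = j + 1 := ⟨k - 1, by omega⟩
        rw [show 2 * (j + 1) + 1 = 2 * j + 3 by ring, win_odd]
        rcases Nat.eq_zero_or_pos j with rfl | hj
        · rw [win_zero]; decide +kernel
        · exact (wins_next _ (ih j (by omega) hj)).2

/-! ### The main path: the two heads always read different letters -/

def sep (w : List (Fin 5)) : Bool :=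
  match w with
  | [a, b, c, d, e, _, _, _, _] => a != b && a != c && b != c && b != d && b != e && c != e
  | _ => false

theorem wins_sep : ∀ w ∈ wins, sep w = true := by
  decide +kernel

theorem heads_ne (m : ℕ) : x (5 + 3 * m) ≠ x (6 + 3 * m) ∧ x (5 + 3 * m) ≠ x (7 + 3 * m) ∧
    x (6 + 3 * m) ≠ x (7 + 3 * m) ∧ x (6 + 3 * m) ≠ x (8 + 3 * m) ∧
    x (6 + 3 * m) ≠ x (9 + 3 * m) ∧ x (7 + 3 * m) ≠ x (9 + 3 * m) := by
  have h : sep (win m) = true := by
    rcases Nat.eq_zero_or_pos m with rfl | hm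
    · rw [win_zero]; decide +kernel
    · exact wins_sep _ (win_mem m hm)
  simp only [win, sep, Bool.and_eq_true, bne_iff_ne] at h
  tauto

/-- Number of letters read by the first copy before time `n`, on the main path. -/
def P (n : ℕ) : ℕ :=
  if n ≤ 6 then n
  else if n ≤ 11 then 6
  else 6 + 3 * ((n - 11) / 6) +
    (if (n - 11) % 6 = 0 then 0 else if (n - 11) % 6 ≤ 2 then 1 else if (n - 11) % 6 = 3 then 2
      else 3)

/-- The first set of the splitting. -/
def N1 : Set ℕ := {n | n ≤ 5 ∨ (11 ≤ n ∧ ((n - 11) % 6 = 0 ∨ (n - 11) % 6 = 2 ∨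
  (n - 11) % 6 = 3))}

instance : DecidablePred (· ∈ N1) := fun n => by unfold N1; infer_instance

theorem P_succ (n : ℕ) : P (n + 1) = P n + if n ∈ N1 then 1 else 0 := by
  by_cases hn : n ∈ N1
  · rw [if_pos hn]
    simp only [N1, Set.mem_ofPred_eq] at hn
    simp only [P]
    split_ifs <;> omega
  · rw [if_neg hn]
    simp only [N1, Set.mem_ofPred_eq] at hn
    simp only [P]
    split_ifs <;> omega

theorem P_le (n : ℕ) : P n ≤ n := by
  simp only [P]
  split_ifs <;> omega

/-- The word reads itself along the main path. -/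
theorem read (n : ℕ) : x n = if n ∈ N1 then x (P n) else x (n - P n) := by
  obtain ⟨h0, h1, h2, h3, h4, h5, h6, h7, h8, h9, h10⟩ := small_vals
  rcases Nat.lt_or_ge n 6 with h | h
  · have : n ∈ N1 := Or.inl (by omega)
    rw [if_pos this]
    simp only [P]
    rw [if_pos (by omega)]
  · rcases Nat.lt_or_ge n 11 with h' | h'
    · have hn : n ∉ N1 := by
        simp only [N1, Set.mem_ofPred_eq]; omega
      have hP : P n = 6 := by
        simp only [P]; split_ifs <;> omega
      rw [if_neg hn, hP]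
      interval_cases n <;> simp [h0, h1, h2, h3, h4, h6, h7, h8, h9, h10]
    · obtain ⟨m, k, hk, rfl⟩ : ∃ m k, k < 6 ∧ n = 11 + 6 * m + k :=
        ⟨(n - 11) / 6, (n - 11) % 6, Nat.mod_lt _ (by norm_num), by omega⟩
      have e1 : (11 + 6 * m + k - 11) % 6 = k := by omega
      have e2 : (11 + 6 * m + k - 11) / 6 = m := by omega
      have hP : P (11 + 6 * m + k) = 6 + 3 * m +
          (if k = 0 then 0 else if k ≤ 2 then 1 else if k = 3 then 2 else 3) := by
        simp only [P, e1, e2]
        split_ifs <;> omega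
      have hN : (11 + 6 * m + k ∈ N1) ↔ (k = 0 ∨ k = 2 ∨ k = 3) := by
        simp only [N1, Set.mem_ofPred_eq, e1]
        omega
      simp only [hN, hP]
      interval_cases k
      · simp only [true_or, if_true]
        exact x0 m
      · simp
        rw [show 11 + 6 * m + 1 = 12 + 6 * m by omega, x1 m]
        congr 1; omega
      · simp
        rw [show 11 + 6 * m + 2 = 13 + 6 * m by omega, x2 m]
        congr 1; omega
      · simp
        rw [show 11 + 6 * m + 3 = 14 + 6 * m by omega, x3 m]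
        congr 1; omega
      · simp
        rw [show 11 + 6 * m + 4 = 15 + 6 * m by omega, x4 m]
        congr 1; omega
      · simp
        rw [show 11 + 6 * m + 5 = 16 + 6 * m by omega, x5 m]
        congr 1; omega

theorem main_ne (n : ℕ) (hn : 7 ≤ n) : x (P n) ≠ x (n - P n) := by
  obtain ⟨h0, h1, h2, h3, h4, h5, h6, h7, h8, h9, h10⟩ := small_vals
  rcases Nat.lt_or_ge n 11 with h' | h'
  · have hP : P n = 6 := by
      simp only [P]; split_ifs <;> omega
    rw [hP]
    interval_cases n <;> simp [h1, h2, h3, h4, h6]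
  · obtain ⟨m, k, hk, rfl⟩ : ∃ m k, k < 6 ∧ n = 11 + 6 * m + k :=
      ⟨(n - 11) / 6, (n - 11) % 6, Nat.mod_lt _ (by norm_num), by omega⟩
    have e1 : (11 + 6 * m + k - 11) % 6 = k := by omega
    have e2 : (11 + 6 * m + k - 11) / 6 = m := by omega
    have hP : P (11 + 6 * m + k) = 6 + 3 * m +
        (if k = 0 then 0 else if k ≤ 2 then 1 else if k = 3 then 2 else 3) := by
      simp only [P, e1, e2]
      split_ifs <;> omega
    obtain ⟨a1, a2, a3, a4, a5, a6⟩ := heads_ne m
    have a7 := (heads_ne (m + 1)).1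
    rw [hP]
    interval_cases k
    · simp only [if_true]
      rw [show 6 + 3 * m + 0 = 6 + 3 * m by omega,
        show 11 + 6 * m + 0 - (6 + 3 * m) = 5 + 3 * m by omega]
      exact a1.symm
    · simp only [one_ne_zero, if_false, Nat.one_le_ofNat, if_true]
      rw [show 6 + 3 * m + 1 = 7 + 3 * m by omega,
        show 11 + 6 * m + 1 - (7 + 3 * m) = 5 + 3 * m by omega]
      exact a2.symm
    · simp only [OfNat.ofNat_ne_zero, if_false, le_refl, if_true]
      rw [show 6 + 3 * m + 1 = 7 + 3 * m by omega,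
        show 11 + 6 * m + 2 - (7 + 3 * m) = 6 + 3 * m by omega]
      exact a3.symm
    · simp only [OfNat.ofNat_ne_zero, if_false, Nat.reduceLeDiff, if_true]
      rw [show 6 + 3 * m + 2 = 8 + 3 * m by omega,
        show 11 + 6 * m + 3 - (8 + 3 * m) = 6 + 3 * m by omega]
      exact a4.symm
    · simp only [OfNat.ofNat_ne_zero, if_false, Nat.reduceLeDiff, Nat.reduceEqDiff]
      rw [show 6 + 3 * m + 3 = 9 + 3 * m by omega,
        show 11 + 6 * m + 4 - (9 + 3 * m) = 6 + 3 * m by omega]
      exact a5.symm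
    · simp only [OfNat.ofNat_ne_zero, if_false, Nat.reduceLeDiff, Nat.reduceEqDiff]
      rw [show 6 + 3 * m + 3 = 9 + 3 * m by omega,
        show 11 + 6 * m + 5 - (9 + 3 * m) = 7 + 3 * m by omega]
      exact a6.symm

/-! ### Paths -/

/-- `alive T P Q`: the text `T` can be read from the two sources `P` and `Q`. -/
def alive : List (Fin 5) → List (Fin 5) → List (Fin 5) → Bool
  | [], _, _ => true
  | c :: T, P, Q =>
    (match P with
      | [] => true
      | d :: P' => (c == d) && alive T P' Q) ||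
    (match Q with
      | [] => true
      | d :: Q' => (c == d) && alive T P Q')

theorem alive_cons (c : Fin 5) (T P Q : List (Fin 5)) : alive (c :: T) P Q =
    ((match P with
      | [] => true
      | d :: P' => (c == d) && alive T P' Q) ||
    (match Q with
      | [] => true
      | d :: Q' => (c == d) && alive T P Q')) := rfl

def Pre : List (Fin 5) → ℕ → Prop
  | [], _ => True
  | c :: l, a => c = x a ∧ Pre l (a + 1)

theorem wins_dead : ∀ w ∈ wins, ∀ r ∈ [0, 1, 2], w.drop r ≠ [] → (w.drop r).head? = some 0 →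
    alive (w.drop (r + 1)) (w.drop r) [1, 2, 3, 1, 4, 0, 1, 2] = false := by
  decide +kernel

/-- `f` counts the letters read by the first copy along the splitting with first set `M`. -/
structure IsPath (M : Set ℕ) (f : ℕ → ℕ) : Prop where
  zero : f 0 = 0
  le : ∀ n, f n ≤ n
  pos : ∀ n, n ∈ M → f (n + 1) = f n + 1
  neg : ∀ n, n ∉ M → f (n + 1) = f n
  read₁ : ∀ n, n ∈ M → x n = x (f n)
  read₂ : ∀ n, n ∉ M → x n = x (n - f n)

theorem alive_of_path {M : Set ℕ} {f : ℕ → ℕ} (h : IsPath M f) :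
    ∀ (T P Q : List (Fin 5)) (n : ℕ), Pre T n → Pre P (f n) → Pre Q (n - f n) →
      alive T P Q = true := by
  intro T
  induction T with
  | nil => intro P Q n _ _ _; simp [alive]
  | cons c T ih =>
    intro P Q n hT hP hQ
    obtain ⟨hc, hT'⟩ := hT
    have hle := h.le n
    rw [alive_cons]
    by_cases hn : n ∈ M
    · have h1 := h.read₁ n hn
      have h2 := h.pos n hn
      rw [Bool.or_eq_true]
      left
      cases P with
      | nil => rfl
      | cons d P' =>
        obtain ⟨hd, hP'⟩ := hP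
        simp only [Bool.and_eq_true, beq_iff_eq]
        refine ⟨by rw [hc, hd, h1], ih P' Q (n + 1) hT' (by rw [h2]; exact hP') ?_⟩
        rw [show n + 1 - f (n + 1) = n - f n by omega]
        exact hQ
    · have h1 := h.read₂ n hn
      have h2 := h.neg n hn
      rw [Bool.or_eq_true]
      right
      cases Q with
      | nil => rfl
      | cons d Q' =>
        obtain ⟨hd, hQ'⟩ := hQ
        simp only [Bool.and_eq_true, beq_iff_eq]
        refine ⟨by rw [hc, hd, h1], ih P Q' (n + 1) hT' (by rw [h2]; exact hP) ?_⟩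
        rw [show n + 1 - f (n + 1) = n - f n + 1 by omega]
        exact hQ'

theorem pre_drop (l : List (Fin 5)) (a r : ℕ) (h : Pre l a) : Pre (l.drop r) (a + r) := by
  induction r generalizing l a with
  | zero => simpa using h
  | succ r ih =>
    cases l with
    | nil => simp [Pre]
    | cons c l =>
      have := ih l (a + 1) h.2
      simpa [Nat.add_assoc, Nat.add_comm 1 r] using this

theorem pre_win (m : ℕ) : Pre (win m) (5 + 3 * m) := by
  simp only [win, Pre, and_true, true_and]
  refine ⟨?_, ?_, ?_, ?_, ?_, ?_, ?_, ?_⟩ <;> congr 1 <;> omega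

/-- The second copy cannot start at a time `n ≥ 7`. -/
theorem no_late_start {M : Set ℕ} {f : ℕ → ℕ} (h : IsPath M f) (n : ℕ) (hn : 7 ≤ n)
    (hf : f n = n) (hM : n ∉ M) : False := by
  obtain ⟨h0, h1, h2, h3, h4, h5, h6, h7, h8, h9, h10⟩ := small_vals
  have hx : x n = 0 := by
    have := h.read₂ n hM
    rw [hf, Nat.sub_self, h0] at this
    exact this
  rcases Nat.eq_or_lt_of_le hn with rfl | hn'
  · rw [h7] at hx; exact absurd hx (by decide)
  · obtain ⟨m, r, hr, hm, rfl⟩ : ∃ m r, r < 3 ∧ 1 ≤ m ∧ n = 5 + 3 * m + r :=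
      ⟨(n - 5) / 3, (n - 5) % 3, Nat.mod_lt _ (by norm_num), by omega, by omega⟩
    have hP : Pre ((win m).drop r) (5 + 3 * m + r) := pre_drop _ _ _ (pre_win m)
    have hT : Pre ((win m).drop (r + 1)) (5 + 3 * m + r + 1) := pre_drop _ _ (r + 1) (pre_win m)
    have hQ : Pre [1, 2, 3, 1, 4, 0, 1, 2] 1 := by
      simp [Pre, h1, h2, h3, h4, h5, h6, h7, h8]
    have hf' : f (5 + 3 * m + r + 1) = 5 + 3 * m + r := by rw [h.neg _ hM, hf]
    have ha := alive_of_path h ((win m).drop (r + 1)) ((win m).drop r) [1, 2, 3, 1, 4, 0, 1, 2]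
      (5 + 3 * m + r + 1) hT (by rw [hf']; exact hP) (by
        rw [hf', show 5 + 3 * m + r + 1 - (5 + 3 * m + r) = 1 by omega]; exact hQ)
    have hhead : ((win m).drop r).head? = some 0 := by
      interval_cases r
      · simp only [win, List.drop_zero, List.head?_cons, Option.some.injEq]
        exact hx
      · simp only [win, List.drop_succ_cons, List.drop_zero, List.head?_cons, Option.some.injEq]
        rw [← hx]; congr 1; omega
      · simp only [win, List.drop_succ_cons, List.drop_zero, List.head?_cons, Option.some.injEq]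
        rw [← hx]; congr 1; omega
    have hne : (win m).drop r ≠ [] := by
      intro h; rw [h] at hhead; simp at hhead
    have hr' : r ∈ [0, 1, 2] := by
      interval_cases r <;> simp
    have := wins_dead (win m) (win_mem m hm) r hr' hne hhead
    rw [this] at ha
    exact absurd ha (by decide)

/-- Every splitting with `0` in the first set is the one with first set `N1`. -/
theorem unique_path {M : Set ℕ} {f : ℕ → ℕ} (h : IsPath M f) (h0M : 0 ∈ M) (hM : M ≠ Set.univ) :
    M = N1 := by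
  obtain ⟨h0, h1, h2, h3, h4, h5, h6, h7, h8, h9, h10⟩ := small_vals
  have start : ∀ n, n ≤ 5 → n ∈ M ∧ f n = n := by
    intro n
    induction n with
    | zero => intro _; exact ⟨h0M, h.zero⟩
    | succ n ih =>
      intro hn
      obtain ⟨a, b⟩ := ih (by omega)
      have hf : f (n + 1) = n + 1 := by rw [h.pos n a, b]
      refine ⟨?_, hf⟩
      by_contra hc
      have := h.read₂ (n + 1) hc
      rw [hf, Nat.sub_self, h0] at this
      have hn5 : n < 5 := by omega
      interval_cases n <;> simp_all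
  have f6 : f 6 = 6 := by
    rw [h.pos 5 (start 5 le_rfl).1, (start 5 le_rfl).2]
  have n6 : 6 ∉ M := by
    intro h6M
    apply hM
    have key : ∀ n, f n = n ∧ n ∈ M := by
      intro n
      induction n with
      | zero => exact ⟨h.zero, h0M⟩
      | succ n ih =>
        have hf : f (n + 1) = n + 1 := by rw [h.pos n ih.2, ih.1]
        refine ⟨hf, ?_⟩
        rcases Nat.lt_or_ge n 5 with h' | h'
        · exact (start (n + 1) (by omega)).1
        · rcases Nat.eq_or_lt_of_le h' with rfl | h''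
          · exact h6M
          · by_contra hc
            exact no_late_start h (n + 1) (by omega) hf hc
    exact Set.eq_univ_of_forall fun n => (key n).2
  have P7 : P 7 = 6 := by decide
  have step : ∀ n, 7 ≤ n → f n = P n → (n ∈ M ↔ n ∈ N1) := by
    intro n hn hf
    have hne := main_ne n hn
    have hr := read n
    constructor
    · intro ha
      by_contra hb
      rw [if_neg hb] at hr
      apply hne
      rw [← hr, ← hf]
      exact (h.read₁ n ha).symm
    · intro ha
      by_contra hb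
      rw [if_pos ha] at hr
      apply hne
      rw [← hr, ← hf]
      exact h.read₂ n hb
  have all : ∀ k, f (7 + k) = P (7 + k) := by
    intro k
    induction k with
    | zero => rw [Nat.add_zero, P7, h.neg 6 n6, f6]
    | succ k ih =>
      have hs := step (7 + k) (by omega) ih
      rw [show 7 + (k + 1) = 7 + k + 1 by omega, P_succ]
      by_cases hc : 7 + k ∈ N1
      · rw [if_pos hc, h.pos _ (hs.2 hc), ih]
      · rw [if_neg hc, h.neg _ (fun hh => hc (hs.1 hh)), ih, Nat.add_zero]
  ext n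
  rcases Nat.lt_or_ge n 6 with h' | h'
  · have a := (start n (by omega)).1
    have b : n ∈ N1 := Or.inl (by omega)
    exact ⟨fun _ => b, fun _ => a⟩
  · rcases Nat.eq_or_lt_of_le h' with rfl | h''
    · have b : (6 : ℕ) ∉ N1 := by
        simp [N1]
      exact ⟨fun hh => absurd hh n6, fun hh => absurd hh b⟩
    · obtain ⟨k, rfl⟩ : ∃ k, n = 7 + k := ⟨n - 7, by omega⟩
      exact step _ (by omega) (all k)

open Classical in
theorem path_of_splitting {M₁ M₂ : Set ℕ} (h : IsSplitting x M₁ M₂) :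
    ∃ f : ℕ → ℕ, IsPath M₁ f := by
  obtain ⟨hd, hu, hi1, hi2, hs1, hs2⟩ := h
  have hmem : ∀ n, n ∉ M₁ → n ∈ M₂ := by
    intro n hn
    have : n ∈ M₁ ∪ M₂ := by rw [hu]; exact Set.mem_univ n
    exact this.resolve_left hn
  have hnot : ∀ n, n ∈ M₁ → n ∉ M₂ := fun n h1 h2 => Set.disjoint_left.1 hd h1 h2
  have hsum : ∀ n, Nat.count (fun n => n ∈ M₁) n + Nat.count (fun n => n ∈ M₂) n = n := by
    intro n
    induction n with
    | zero => simp
    | succ n ih =>
      rw [Nat.count_succ, Nat.count_succ]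
      by_cases hn : n ∈ M₁
      · rw [if_pos hn, if_neg (hnot n hn)]; omega
      · rw [if_neg hn, if_pos (hmem n hn)]; omega
  refine ⟨fun n => Nat.count (fun n => n ∈ M₁) n, ⟨by simp, ?_, ?_, ?_, ?_, ?_⟩⟩
  · intro n; have := hsum n; omega
  · intro n hn; rw [Nat.count_succ, if_pos hn]
  · intro n hn; rw [Nat.count_succ, if_neg hn, Nat.add_zero]
  · intro n hn
    have a := congrFun hs1 (Nat.count (fun n => n ∈ M₁) n)
    unfold subword at a
    rw [Nat.nth_count (p := fun n => n ∈ M₁) hn] at a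
    exact a
  · intro n hn
    have a := congrFun hs2 (Nat.count (fun n => n ∈ M₂) n)
    unfold subword at a
    rw [Nat.nth_count (p := fun n => n ∈ M₂) (hmem n hn)] at a
    have := hsum n
    rw [show n - Nat.count (fun n => n ∈ M₁) n = Nat.count (fun n => n ∈ M₂) n by omega]
    exact a

theorem N1_infinite : N1.Infinite :=
  Set.infinite_of_injective_forall_mem (f := fun m : ℕ => 11 + 6 * m)
    (fun a b h => by simp only at h; omega) (fun m => by
      simp only [N1, Set.mem_ofPred_eq]; omega)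

theorem N1_compl_infinite : (N1ᶜ).Infinite :=
  Set.infinite_of_injective_forall_mem (f := fun m : ℕ => 12 + 6 * m)
    (fun a b h => by simp only at h; omega) (fun m => by
      simp only [N1, Set.mem_compl_iff, Set.mem_ofPred_eq]; omega)

open Classical in
theorem count_N1 (n : ℕ) : Nat.count (fun n => n ∈ N1) n = P n := by
  induction n with
  | zero => simp [P]
  | succ n ih => rw [Nat.count_succ, ih, P_succ]

open Classical in
theorem count_N1_compl (n : ℕ) : Nat.count (fun n => n ∈ N1ᶜ) n = n - P n := by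
  induction n with
  | zero => simp [P]
  | succ n ih =>
    have := P_le n
    rw [Nat.count_succ, ih, P_succ]
    by_cases hn : n ∈ N1
    · rw [if_pos hn, if_neg (by simpa using hn)]; omega
    · rw [if_neg hn, if_pos (by simpa using hn)]; omega

theorem splitting : IsSplitting x N1 N1ᶜ := by
  classical
  refine ⟨disjoint_compl_right, Set.union_compl_self _, N1_infinite, N1_compl_infinite, ?_, ?_⟩
  · funext i
    unfold subword
    have a := Nat.nth_mem_of_infinite (p := fun n => n ∈ N1) N1_infinite i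
    have b := Nat.count_nth_of_infinite (p := fun n => n ∈ N1) N1_infinite i
    rw [read, if_pos a, ← count_N1, b]
  · funext i
    unfold subword
    have a := Nat.nth_mem_of_infinite (p := fun n => n ∈ N1ᶜ) N1_compl_infinite i
    have b := Nat.count_nth_of_infinite (p := fun n => n ∈ N1ᶜ) N1_compl_infinite i
    rw [read, if_neg a, ← count_N1_compl, b]

/-- **There is an infinite word over a finite alphabet (of five letters) that is self-shuffling
and admits exactly one steering word starting with `1`.** -/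
theorem result : ∃ x : ℕ → Fin 5, ∃! s : ℕ → ℕ, s 0 = 1 ∧ IsSteeringWord x s := by
  classical
  refine ⟨x, fun n => if n ∈ N1 then 1 else 2, ⟨?_, ?_⟩, ?_⟩
  · have : (0 : ℕ) ∈ N1 := Or.inl (by omega)
    simp only [this, if_true]
  · have e1 : {n : ℕ | (if n ∈ N1 then 1 else 2) = 1} = N1 := by
      ext n
      by_cases hn : n ∈ N1 <;> simp [hn]
    have e2 : {n : ℕ | (if n ∈ N1 then 1 else 2) = 2} = N1ᶜ := by
      ext n
      by_cases hn : n ∈ N1 <;> simp [hn]
    unfold IsSteeringWord
    rw [e1, e2]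
    exact splitting
  · rintro s ⟨hs0, hs⟩
    obtain ⟨f, hf⟩ := path_of_splitting hs
    have hne : {n | s n = 1} ≠ Set.univ := by
      intro h
      obtain ⟨n, hn⟩ := hs.2.2.2.1.nonempty
      have : n ∈ ({n | s n = 1} : Set ℕ) := by rw [h]; exact Set.mem_univ n
      exact Set.disjoint_left.1 hs.1 this hn
    have key := unique_path hf hs0 hne
    funext n
    by_cases hn : n ∈ N1
    · have : n ∈ ({n | s n = 1} : Set ℕ) := by rw [key]; exact hn
      rw [if_pos hn]
      exact this
    · have h1 : n ∉ ({n | s n = 1} : Set ℕ) := by rw [key]; exact hn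
      have h2 : n ∈ ({n | s n = 1} ∪ {n | s n = 2} : Set ℕ) := by
        rw [hs.2.1]; exact Set.mem_univ n
      rw [if_neg hn]
      exact h2.resolve_left h1

end Pool.Agent.Results.MP_814ec7_co.UniqueSteeringWord
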